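import Pool.Agent.H43.BZ.Stm2

/-!
# The collision moment is at most the hydrodynamic bound for `γ ≥ 0`
-/

set_option autoImplicit false

open MeasureTheory Metric Set Filter Topology
open scoped RealInnerProductSpace ENNReal

namespace Pool.Agent.H599.BZ

open Pool.Agent.H43.BZ

theorem rpow_le_one_add_sq {t γ : ℝ} (ht : 0 ≤ t) (h0 : 0 ≤ γ) (h2 : γ ≤ 2) :
    t ^ γ ≤ 1 + t ^ 2 := by
  rcases le_total t 1 with h | h
  · have := Real.rpow_le_one ht h h0
    have := sq_nonneg t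
    linarith
  · have h3 := Real.rpow_le_rpow_of_exponent_le h h2
    have h4 : t ^ (2 : ℝ) = t ^ 2 := by
      rw [← Real.rpow_natCast]
      norm_num
    rw [h4] at h3
    linarith

theorem kk_nonneg {d : ℕ} (γ s : ℝ) (v w : E d) : 0 ≤ kk γ s v w := by
  unfold kk
  have : 0 ≤ 1 + ‖w‖ := by positivity
  positivity

theorem kk_le {d : ℕ} {γ s : ℝ} (h0 : 0 ≤ γ) (h2 : γ ≤ 2) (v w : E d) :
    kk γ s v w ≤ (1 + ‖w‖) ^ (γ + 2 * s) := by
  unfold kk
  have hL : 0 < 1 + ‖w‖ := by positivity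
  have hr : 0 ≤ ‖v - w‖ := norm_nonneg _
  have hq : 0 ≤ ‖v - w‖ / (1 + ‖w‖) := by positivity
  have h1 := rpow_le_one_add_sq hq h0 h2
  rw [Real.div_rpow hr hL.le, div_le_iff₀ (Real.rpow_pos_of_pos hL γ)] at h1
  have hden : 0 < 1 + (‖v - w‖ / (1 + ‖w‖)) ^ 2 := by positivity
  rw [div_le_iff₀ hden, Real.rpow_add hL]
  have h3 : 0 ≤ (1 + ‖w‖) ^ (2 * s) := (Real.rpow_pos_of_pos hL _).le
  calc ‖v - w‖ ^ γ * (1 + ‖w‖) ^ (2 * s) ≤
      (1 + (‖v - w‖ / (1 + ‖w‖)) ^ 2) * (1 + ‖w‖) ^ γ * (1 + ‖w‖) ^ (2 * s) :=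
        mul_le_mul_of_nonneg_right h1 h3
    _ = (1 + ‖w‖) ^ γ * (1 + ‖w‖) ^ (2 * s) * (1 + (‖v - w‖ / (1 + ‖w‖)) ^ 2) := by ring

theorem LAMHARD : S_LAMHARD := by
  intro d hd s γ hs hs1 hγ hγs f t B hf hint hmeas hB
  unfold Lam
  have hγ2 : γ ≤ 2 := by linarith
  apply ciSup_le
  rintro ⟨x, v⟩
  have hI : Integrable (fun w => f t x w * (1 + ‖w‖) ^ (γ + 2 * s)) := by
    refine (hint x).mono' ?_ (ae_of_all _ fun w => ?_)
    · have h1 : Measurable fun w : E d => f t x w * (1 + ‖w‖) ^ (γ + 2 * s) := by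
        refine (hmeas x).mul ?_
        exact (measurable_const.add measurable_norm).pow_const _
      exact h1.aestronglyMeasurable
    · have hL : 1 ≤ 1 + ‖w‖ := by
        have := norm_nonneg w
        linarith
      have h3 : (0 : ℝ) ≤ (1 + ‖w‖) ^ (γ + 2 * s) := (Real.rpow_pos_of_pos (by linarith) _).le
      rw [Real.norm_of_nonneg (mul_nonneg (hf x w) h3)]
      apply mul_le_mul_of_nonneg_left _ (hf x w)
      have h4 := Real.rpow_le_rpow_of_exponent_le hL hγs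
      have h5 : (1 + ‖w‖) ^ (2 : ℝ) = (1 + ‖w‖) ^ (2 : ℕ) := by
        rw [← Real.rpow_natCast]
        norm_num
      rw [h5] at h4
      exact h4
  refine le_trans (integral_mono_of_nonneg (ae_of_all _ fun w => ?_) hI (ae_of_all _ fun w => ?_))
    (hB x)
  · exact mul_nonneg (hf x w) (kk_nonneg γ s v w)
  · exact mul_le_mul_of_nonneg_left (kk_le hγ hγ2 v w) (hf x w)

end Pool.Agent.H599.BZ
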