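import Pool.Agent.H43.BZ.Stm3

/-!
# Second derivatives at a contact point
-/

set_option autoImplicit false

open MeasureTheory Metric Set Filter Topology
open scoped RealInnerProductSpace ENNReal

namespace Pool.Agent.H599.BZ

open Pool.Agent.H43.BZ

/-- second derivative test along a line -/
theorem snd_nonneg {f f' : ℝ → ℝ} {s : ℝ} (h1 : ∀ t, HasDerivAt f (f' t) t) (h2 : HasDerivAt f' s 0)
    (hmin : ∀ t, f 0 ≤ f t) : 0 ≤ s := by
  by_contra hs
  push Not at hs
  have h10 : f' 0 = 0 := by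
    have : IsLocalMin f 0 := Filter.Eventually.of_forall hmin
    exact this.hasDerivAt_eq_zero (h1 0)
  let g : ℝ → ℝ := fun t => f t + (-s / 4) * t ^ 2
  have hg1 : ∀ t, HasDerivAt g (f' t + (-s / 2) * t) t := by
    intro t
    have h3 : HasDerivAt (fun t : ℝ => t ^ 2) (2 * t) t := by
      simpa using hasDerivAt_pow 2 t
    have h4 := (h1 t).add (h3.const_mul (-s / 4))
    have e : f' t + -s / 4 * (2 * t) = f' t + (-s / 2) * t := by ring
    rw [e] at h4
    exact h4
  have hd1 : deriv g = fun t => f' t + (-s / 2) * t := funext fun t => (hg1 t).deriv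
  have hd2 : deriv (deriv g) 0 = s / 2 := by
    rw [hd1]
    have h5 := h2.add ((hasDerivAt_id (0 : ℝ)).const_mul (-s / 2))
    have := h5.deriv
    have e : s + -s / 2 * 1 = s / 2 := by ring
    rw [e] at this
    exact this
  have hmax : IsLocalMax g 0 := by
    apply isLocalMax_of_deriv_deriv_neg
    · rw [hd2]
      linarith
    · rw [(hg1 0).deriv, h10]
      ring
    · exact (hg1 0).continuousAt
  obtain ⟨δ, hδ, hball⟩ := Metric.eventually_nhds_iff.1 hmax
  have h6 := hball (show dist (δ / 2) 0 < δ by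
    rw [Real.dist_eq, sub_zero, abs_of_pos (by positivity)]
    linarith)
  simp only [g] at h6
  have h7 := hmin (δ / 2)
  have h8 : 0 < (-s / 4) * (δ / 2) ^ 2 := by
    apply mul_pos
    · linarith
    · positivity
  have h9 : (-s / 4) * (0 : ℝ) ^ 2 = 0 := by ring
  linarith

theorem d2_nonneg {d : ℕ} {φ : E d → ℝ} (hφ : ContDiff ℝ 2 φ) {v : E d} (hmin : ∀ y, φ v ≤ φ y) (h : E d) :
    0 ≤ fderiv ℝ (fderiv ℝ φ) v h h := by
  have hd : Differentiable ℝ φ := hφ.differentiable (by norm_num)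
  have hd2 : ContDiff ℝ 1 (fderiv ℝ φ) := hφ.fderiv_right (by norm_num)
  have hd3 : Differentiable ℝ (fderiv ℝ φ) := hd2.differentiable (by norm_num)
  have hline : ∀ t : ℝ, HasDerivAt (fun t : ℝ => v + t • h) h t := by
    intro t
    have := ((hasDerivAt_id t).smul_const h).const_add v
    rw [one_smul] at this
    exact this
  have h1 : ∀ t : ℝ, HasDerivAt (fun t : ℝ => φ (v + t • h)) (fderiv ℝ φ (v + t • h) h) t := fun t =>
    (hd (v + t • h)).hasFDerivAt.comp_hasDerivAt t (hline t)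
  have h2 : HasDerivAt (fun t : ℝ => fderiv ℝ φ (v + t • h) h) (fderiv ℝ (fderiv ℝ φ) v h h) 0 := by
    have h3 : HasDerivAt (fun t : ℝ => fderiv ℝ φ (v + t • h))
        (fderiv ℝ (fderiv ℝ φ) (v + (0 : ℝ) • h) h) 0 :=
      (hd3 (v + (0 : ℝ) • h)).hasFDerivAt.comp_hasDerivAt (0 : ℝ) (hline 0)
    rw [zero_smul, add_zero] at h3
    have h4 := h3.clm_apply (hasDerivAt_const (0 : ℝ) h)
    simpa using h4
  refine snd_nonneg h1 h2 fun t => ?_
  have e : v + (0 : ℝ) • h = v := by rw [zero_smul, add_zero]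
  rw [e]
  exact hmin _

theorem trace_bound {d : ℕ} (B : E d →L[ℝ] E d →L[ℝ] ℝ) (hB : ∀ x, 0 ≤ B x x) (z : E d) :
    B z z ≤ ‖z‖ ^ 2 * ∑ i : Fin d, B (EuclideanSpace.single i 1) (EuclideanSpace.single i 1) := by
  let e : Fin d → E d := fun i => EuclideanSpace.single i 1
  have hz : z = ∑ i, z i • e i := by
    have h := (EuclideanSpace.basisFun (Fin d) ℝ).sum_repr z
    simp only [EuclideanSpace.basisFun_apply, EuclideanSpace.basisFun_repr] at h
    exact h.symm
  have hBz : B z z = ∑ i, ∑ j, z i * z j * B (e i) (e j) := by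
    conv_lhs => rw [hz]
    simp only [map_sum, map_smul, sum_apply, smul_apply,
      smul_eq_mul, Finset.mul_sum]
    rw [Finset.sum_comm]
    refine Finset.sum_congr rfl fun i _ => Finset.sum_congr rfl fun j _ => ?_
    ring
  have hn : ‖z‖ ^ 2 = ∑ i, z i ^ 2 := by
    rw [EuclideanSpace.norm_sq_eq]
    refine Finset.sum_congr rfl fun i _ => ?_
    rw [Real.norm_eq_abs, sq_abs]
  have key : ∀ i j, 0 ≤ z j ^ 2 * B (e i) (e i) + z i ^ 2 * B (e j) (e j) -
      z i * z j * (B (e i) (e j) + B (e j) (e i)) := by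
    intro i j
    have := hB (z j • e i - z i • e j)
    simp only [map_sub, map_smul, sub_apply, smul_apply,
      smul_eq_mul] at this
    linarith
  have hsum : 0 ≤ ∑ i, ∑ j, (z j ^ 2 * B (e i) (e i) + z i ^ 2 * B (e j) (e j) -
      z i * z j * (B (e i) (e j) + B (e j) (e i))) :=
    Finset.sum_nonneg fun i _ => Finset.sum_nonneg fun j _ => key i j
  simp only [Finset.sum_sub_distrib, Finset.sum_add_distrib] at hsum
  have e1 : ∑ i, ∑ j, z j ^ 2 * B (e i) (e i) = ‖z‖ ^ 2 * ∑ i, B (e i) (e i) := by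
    rw [hn, Finset.sum_mul_sum, Finset.sum_comm]
  have e2 : ∑ i, ∑ j, z i ^ 2 * B (e j) (e j) = ‖z‖ ^ 2 * ∑ i, B (e i) (e i) := by
    rw [hn, Finset.sum_mul_sum]
  have e3 : ∑ i, ∑ j, z i * z j * (B (e i) (e j) + B (e j) (e i)) = 2 * B z z := by
    rw [hBz, two_mul]
    conv_rhs =>
      arg 2
      rw [Finset.sum_comm]
    rw [← Finset.sum_add_distrib]
    refine Finset.sum_congr rfl fun i _ => ?_
    rw [← Finset.sum_add_distrib]
    refine Finset.sum_congr rfl fun j _ => ?_
    ring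
  rw [e1, e2, e3] at hsum
  show B z z ≤ ‖z‖ ^ 2 * ∑ i, B (e i) (e i)
  linarith

theorem LHES : S_LHES := by
  intro d _ γ g h hg hh v hle heq z
  have hφ : ContDiff ℝ 2 (fun y => h y - g y) := hh.sub hg
  have hgd : Differentiable ℝ g := hg.differentiable (by norm_num)
  have hhd : Differentiable ℝ h := hh.differentiable (by norm_num)
  have hgd2 : Differentiable ℝ (fderiv ℝ g) :=
    (hg.fderiv_right (m := 1) (by norm_num)).differentiable (by norm_num)
  have hhd2 : Differentiable ℝ (fderiv ℝ h) :=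
    (hh.fderiv_right (m := 1) (by norm_num)).differentiable (by norm_num)
  have e1 : fderiv ℝ (fun y => h y - g y) = fun y => fderiv ℝ h y - fderiv ℝ g y := by
    funext y
    exact fderiv_fun_sub (hhd y) (hgd y)
  have e2 : fderiv ℝ (fderiv ℝ (fun y => h y - g y)) v =
      fderiv ℝ (fderiv ℝ h) v - fderiv ℝ (fderiv ℝ g) v := by
    rw [e1]
    exact fderiv_fun_sub (hhd2 v) (hgd2 v)
  have hB : ∀ x, 0 ≤ (fderiv ℝ (fderiv ℝ h) v - fderiv ℝ (fderiv ℝ g) v) x x := by
    intro x
    rw [← e2]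
    refine d2_nonneg hφ (fun y => ?_) x
    have := hle y
    show h v - g v ≤ h y - g y
    linarith
  have h3 := trace_bound _ hB z
  simp only [sub_apply, Finset.sum_sub_distrib] at h3
  unfold aHess d2
  apply mul_le_mul_of_nonneg_left _ (Real.rpow_nonneg (norm_nonneg z) γ)
  linarith

end Pool.Agent.H599.BZ
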